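import Pool.Agent.H23.LB.Targets
import Pool.Agent.H66.HK.FD

/-!
# Board gla_modules, module BE: the inequality of Bessel
-/

set_option autoImplicit false

open NumberField NumberField.InfinitePlace NumberField.Units
  NumberField.Units.dirichletUnitTheorem MeasureTheory Set Filter Complex
open scoped nonZeroDivisors ENNReal

namespace Pool.Agent.H94.GLA

open Pool.Agent.H25.HK Pool.Agent.H23.LB
open Pool.Agent.H28.RC hiding cf gS T_H1

section Abstract

variable {W : Type*} [AddCommGroup W] [Module ℂ W]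

/-- the inequality of Bessel for a positive semidefinite form -/
theorem bessel_abs (c : PreInnerProductSpace.Core ℂ W) {ι : Type*} [Fintype ι] (e : ι → W)
    (V : ℝ) (hV : 0 < V) (ho : ∀ i j, i ≠ j → c.inner (e i) (e j) = 0)
    (hn : ∀ i, c.inner (e i) (e i) = (V : ℂ)) (x : W) :
    ∑ i, ‖c.inner (e i) x‖ ^ 2 ≤ V * (c.inner x x).re := by
  classical
  let _ : SeminormedAddCommGroup W :=
    InnerProductSpace.Core.toSeminormedAddCommGroup (𝕜 := ℂ) (c := c)
  let _ : InnerProductSpace ℂ W := InnerProductSpace.ofCore c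
  have hin : ∀ u v : W, inner ℂ u v = c.inner u v := fun _ _ => rfl
  have hs : (0 : ℝ) < Real.sqrt V := Real.sqrt_pos.2 hV
  have hss : Real.sqrt V * Real.sqrt V = V := Real.mul_self_sqrt hV.le
  have hort : Orthonormal ℂ (fun i => (((Real.sqrt V)⁻¹ : ℝ) : ℂ) • e i) := by
    rw [orthonormal_iff_ite]
    intro i j
    rw [inner_smul_left, inner_smul_right, hin, conj_ofReal]
    by_cases hij : i = j
    · subst hij
      rw [if_pos rfl, hn, ← ofReal_mul, ← ofReal_mul, ← ofReal_one]
      congr 1
      field_simp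
      rw [pow_two, hss]
    · rw [if_neg hij, ho i j hij, mul_zero, mul_zero]
  have h := hort.sum_inner_products_le (s := Finset.univ) x
  rw [InnerProductSpace.norm_sq_eq_re_inner (𝕜 := ℂ) x] at h
  have h1 : ∀ i, ‖inner ℂ ((((Real.sqrt V)⁻¹ : ℝ) : ℂ) • e i) x‖ ^ 2 =
      V⁻¹ * ‖c.inner (e i) x‖ ^ 2 := by
    intro i
    rw [inner_smul_left, hin, norm_mul, RCLike.norm_conj, Complex.norm_real, Real.norm_eq_abs,
      abs_of_pos (inv_pos.2 hs), mul_pow, inv_pow, Real.sq_sqrt hV.le]
  rw [Finset.sum_congr rfl fun i _ => h1 i, ← Finset.mul_sum] at h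
  have h2 : ∑ i, ‖c.inner (e i) x‖ ^ 2 = V * (V⁻¹ * ∑ i, ‖c.inner (e i) x‖ ^ 2) := by
    rw [← mul_assoc, mul_inv_cancel₀ hV.ne', one_mul]
  rw [h2]
  exact mul_le_mul_of_nonneg_left h hV.le

end Abstract

section

variable {K : Type} [Field K] [NumberField K]

open scoped Classical in
/-- continuous functions are integrable on the fundamental domain -/
theorem int_on (g : logSpace K → ℂ) (hg : Continuous g) : IntegrableOn g (Fd K) := by
  obtain ⟨-, ⟨B, hB⟩, -⟩ := Pool.Agent.H66.HK.fd K
  have hsub : Fd K ⊆ Metric.closedBall (0 : logSpace K) (max B 0) := by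
    intro z hz
    rw [mem_closedBall_zero_iff, pi_norm_le_iff_of_nonneg (le_max_right _ _)]
    intro w
    rw [Real.norm_eq_abs]
    exact (hB z hz w).trans (le_max_left _ _)
  exact (hg.continuousOn.integrableOn_compact (isCompact_closedBall _ _)).mono_set hsub

open scoped Classical in
/-- the volume of the fundamental domain is the regulator -/
theorem vol_Fd : volume.real (Fd K) = regulator K := by
  have hd : IsAddFundamentalDomain (unitLattice K) (Fd K) (volume : Measure (logSpace K)) := by
    have h1 := ZSpan.isAddFundamentalDomain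
      ((basisUnitLattice K).ofZLatticeBasis ℝ (unitLattice K)) (volume : Measure (logSpace K))
    have h2 := (basisUnitLattice K).ofZLatticeBasis_span ℝ
    rw [h2] at h1
    exact h1
  unfold regulator
  exact (ZLattice.covolume_eq_measure_fundamentalDomain (unitLattice K) volume hd).symm

open scoped Classical in
/-- the form -/
@[instance_reducible]
noncomputable def core {f : Ideal (𝓞 K)} (D : Sys K f) :
    PreInnerProductSpace.Core ℂ (D.ι → K → C(logSpace K, ℂ)) where
  inner F G := ∑ c, ∑ r ∈ D.X c, ∫ z in Fd K, (starRingEnd ℂ) (F c r z) * G c r z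
  conj_inner_symm F G := by
    simp only [map_sum]
    refine Finset.sum_congr rfl fun c _ => Finset.sum_congr rfl fun r _ => ?_
    rw [← integral_conj]
    refine integral_congr_ae (ae_of_all _ fun z => ?_)
    simp only [map_mul, Complex.conj_conj]
    ring
  re_inner_nonneg F := by
    rw [map_sum]
    refine Finset.sum_nonneg fun c _ => ?_
    rw [map_sum]
    refine Finset.sum_nonneg fun r _ => ?_
    have h : ∀ z : logSpace K, (starRingEnd ℂ) (F c r z) * F c r z =
        ((‖F c r z‖ ^ 2 : ℝ) : ℂ) := by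
      intro z
      rw [Complex.conj_mul']
      push_cast
      rfl
    rw [integral_congr_ae (ae_of_all _ h), integral_complex_ofReal]
    change 0 ≤ (((∫ z in Fd K, ‖F c r z‖ ^ 2 : ℝ) : ℂ)).re
    rw [ofReal_re]
    exact integral_nonneg fun z => by positivity
  add_left F G H := by
    rw [← Finset.sum_add_distrib]
    refine Finset.sum_congr rfl fun c _ => ?_
    rw [← Finset.sum_add_distrib]
    refine Finset.sum_congr rfl fun r _ => ?_
    rw [← integral_add]
    · refine integral_congr_ae (ae_of_all _ fun z => ?_)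
      simp only [Pi.add_apply, ContinuousMap.add_apply, map_add]
      ring
    · exact int_on _ (by fun_prop)
    · exact int_on _ (by fun_prop)
  smul_left F G a := by
    rw [Finset.mul_sum]
    refine Finset.sum_congr rfl fun c _ => ?_
    rw [Finset.mul_sum]
    refine Finset.sum_congr rfl fun r _ => ?_
    rw [← integral_const_mul]
    refine integral_congr_ae (ae_of_all _ fun z => ?_)
    simp only [Pi.smul_apply, ContinuousMap.smul_apply, smul_eq_mul, map_mul]
    ring

end

theorem pf_BE (hOR : T_OR) (hPU : T_PU) : T_BE := by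
  classical
  intro K _ _ f hf D S Y hY F hF
  have hec := (hPU K).2.2.2.2.1
  -- the vectors
  let e : {χ : HC K f // χ ∈ Y} → D.ι → K → C(logSpace K, ℂ) := fun χ c r =>
    ⟨fun z => (starRingEnd ℂ) (cf χ.1 (D.M c) r * ec K χ.1.ν z), by
      have := (hec χ.1.ν).1
      fun_prop⟩
  let x : D.ι → K → C(logSpace K, ℂ) := fun c r =>
    if h : r ∈ D.X c then ⟨F c r, hF c r h⟩ else 0
  have hx : ∀ c, ∀ r ∈ D.X c, ∀ z, x c r z = F c r z := by
    intro c r hr z
    change (if h : r ∈ D.X c then (⟨F c r, hF c r h⟩ : C(logSpace K, ℂ)) else 0) z = F c r z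
    rw [dif_pos hr]
    rfl
  have hPhi : (0 : ℝ) < Phi K f := by
    have : Finite (𝓞 K ⧸ f) := Ideal.finiteQuotientOfFreeOfNeBot f hf
    unfold Phi
    exact_mod_cast Nat.card_pos
  have hcl : (0 : ℝ) < classNumber K := by
    have : 0 < classNumber K := Fintype.card_pos
    exact_mod_cast this
  have hreg : 0 < regulator K := regulator_pos K
  have key := bessel_abs (core D) e ((classNumber K : ℝ) * regulator K * Phi K f)
    (by positivity) ?_ ?_ x
  · have h1 : ∀ χ : {χ : HC K f // χ ∈ Y}, (core D).inner (e χ) x =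
        ∑ c, ∑ r ∈ D.X c, cf χ.1 (D.M c) r * ∫ z in Fd K, ec K χ.1.ν z * F c r z := by
      intro χ
      refine Finset.sum_congr rfl fun c _ => Finset.sum_congr rfl fun r hr => ?_
      rw [← integral_const_mul]
      refine integral_congr_ae (ae_of_all _ fun z => ?_)
      change (starRingEnd ℂ) ((starRingEnd ℂ) (cf χ.1 (D.M c) r * ec K χ.1.ν z)) * x c r z = _
      rw [hx c r hr, Complex.conj_conj]
      ring
    have h2 : ((core D).inner x x).re = ∑ c, ∑ r ∈ D.X c, ∫ z in Fd K, ‖F c r z‖ ^ 2 := by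
      have h3 : (core D).inner x x =
          ((∑ c, ∑ r ∈ D.X c, ∫ z in Fd K, ‖F c r z‖ ^ 2 : ℝ) : ℂ) := by
        rw [ofReal_sum]
        refine Finset.sum_congr rfl fun c _ => ?_
        rw [ofReal_sum]
        refine Finset.sum_congr rfl fun r hr => ?_
        rw [← integral_complex_ofReal]
        refine integral_congr_ae (ae_of_all _ fun z => ?_)
        change (starRingEnd ℂ) (x c r z) * x c r z = _
        rw [hx c r hr, Complex.conj_mul']
        push_cast
        rfl
      rw [h3, ofReal_re]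
    rw [h2] at key
    rw [← Finset.sum_coe_sort Y]
    calc _ = ∑ χ : {χ : HC K f // χ ∈ Y}, ‖(core D).inner (e χ) x‖ ^ 2 :=
          Finset.sum_congr rfl fun χ _ => by rw [h1 χ]
      _ ≤ _ := key
  · intro χ χ' hne
    have h4 := (hOR K f hf D χ.1 χ'.1 ((hY _ χ.2).trans (hY _ χ'.2).symm)).1
      (fun h => hne (Subtype.ext h))
    refine Eq.trans ?_ h4
    refine Finset.sum_congr rfl fun c _ => Finset.sum_congr rfl fun r _ => ?_
    rw [← integral_const_mul]
    refine integral_congr_ae (ae_of_all _ fun z => ?_)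
    change (starRingEnd ℂ) ((starRingEnd ℂ) (cf χ.1 (D.M c) r * ec K χ.1.ν z)) *
      (starRingEnd ℂ) (cf χ'.1 (D.M c) r * ec K χ'.1.ν z) = _
    rw [Complex.conj_conj, map_mul]
    ring
  · intro χ
    have h5 := (hOR K f hf D χ.1 χ.1 rfl).2
    have h6 : ∀ c, ∀ r : K, ∫ z in Fd K, (starRingEnd ℂ) (e χ c r z) * e χ c r z =
        ((‖cf χ.1 (D.M c) r‖ ^ 2 * regulator K : ℝ) : ℂ) := by
      intro c r
      have h7 : ∀ z : logSpace K, (starRingEnd ℂ) (e χ c r z) * e χ c r z =
          ((‖cf χ.1 (D.M c) r‖ ^ 2 : ℝ) : ℂ) := by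
        intro z
        rw [Complex.conj_mul']
        change ((‖(starRingEnd ℂ) (cf χ.1 (D.M c) r * ec K χ.1.ν z)‖ : ℝ) : ℂ) ^ 2 = _
        rw [RCLike.norm_conj, norm_mul, (hec χ.1.ν).2 z, mul_one]
        push_cast
        rfl
      rw [integral_congr_ae (ae_of_all _ h7), integral_const, measureReal_restrict_apply_univ,
        vol_Fd, real_smul]
      push_cast
      ring
    change ∑ c, ∑ r ∈ D.X c, ∫ z in Fd K, (starRingEnd ℂ) (e χ c r z) * e χ c r z = _
    rw [Finset.sum_congr rfl fun c _ => Finset.sum_congr rfl fun r _ => h6 c r]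
    have h8 : (∑ c, ∑ r ∈ D.X c, ((‖cf χ.1 (D.M c) r‖ ^ 2 * regulator K : ℝ) : ℂ)) =
        (((∑ c, ∑ r ∈ D.X c, ‖cf χ.1 (D.M c) r‖ ^ 2) * regulator K : ℝ) : ℂ) := by
      rw [Finset.sum_mul, ofReal_sum]
      refine Finset.sum_congr rfl fun c _ => ?_
      rw [Finset.sum_mul, ofReal_sum]
    rw [h8, h5]
    congr 1
    ring

end Pool.Agent.H94.GLA
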