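import Pool.Agent.H23.LB.Targets
import Pool.Agent.Ratios.GammaBound
import Pool.Agent.H94.HK.Strip

/-!
# Board gla_modules, module GL: lower bound for the Gamma factor
-/

set_option autoImplicit false

open NumberField NumberField.InfinitePlace NumberField.Units
  NumberField.Units.dirichletUnitTheorem MeasureTheory Set Filter Complex

namespace Pool.Agent.H94.GLA

open Pool.Agent.H23.LB Pool.Agent.H28.RC

/-- lower bound for the Gamma function in the critical strip -/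
theorem Gamma_low (w : ℂ) (h1 : 1 / 8 ≤ w.re) (h2 : w.re ≤ 7 / 8) :
    (1 / 112) * ((1 + |w.im|) ^ 2)⁻¹ * Real.exp (-(Real.pi * |w.im| / 2)) ≤ ‖Gamma w‖ := by
  have hpi := Real.pi_gt_three
  have hy := abs_nonneg w.im
  have e1 : (((1 - w).re : ℝ) : ℂ) + (((1 - w).im : ℝ) : ℂ) * I = 1 - w := re_add_im _
  have hup := Pool.Agent.Ratios.norm_Gamma_le (1 - w).re (1 - w).im
    (by rw [sub_re, one_re]; linarith) (by rw [sub_re, one_re]; linarith)
  rw [e1] at hup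
  have hre := Pool.Agent.Ratios.Gamma_real_le (1 - w).re
    (by rw [sub_re, one_re]; linarith) (by rw [sub_re, one_re]; linarith)
  have him : |(1 - w).im| = |w.im| := by rw [sub_im, one_im, zero_sub, abs_neg]
  rw [him] at hup
  have hup2 : ‖Gamma (1 - w)‖ ≤ 112 * (1 + |w.im|) ^ 2 * Real.exp (-(Real.pi * |w.im| / 2)) := by
    refine hup.trans ?_
    gcongr
    linarith
  have h4 := Complex.Gamma_mul_Gamma_one_sub w
  have hG1 : Gamma w ≠ 0 := Gamma_ne_zero_of_re_pos (by linarith)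
  have hG2 : Gamma (1 - w) ≠ 0 := Gamma_ne_zero_of_re_pos (by rw [sub_re, one_re]; linarith)
  have h5 : Complex.sin (Real.pi * w) ≠ 0 := by
    intro h
    rw [h, div_zero] at h4
    exact (mul_ne_zero hG1 hG2) h4
  have h6 : ‖Complex.sin (Real.pi * w)‖ ≤ Real.exp (Real.pi * |w.im|) := by
    have := Pool.Agent.H94.HK.norm_sin_le_exp (Real.pi * w)
    rwa [im_ofReal_mul, abs_mul, abs_of_pos Real.pi_pos] at this
  have h7 : ‖Gamma w‖ * ‖Gamma (1 - w)‖ * ‖Complex.sin (Real.pi * w)‖ = Real.pi := by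
    rw [← norm_mul, ← norm_mul, h4, div_mul_cancel₀ _ h5, norm_real, Real.norm_eq_abs,
      abs_of_pos Real.pi_pos]
  have h8 : Real.pi ≤ ‖Gamma w‖ * (112 * (1 + |w.im|) ^ 2 *
      Real.exp (-(Real.pi * |w.im| / 2))) * Real.exp (Real.pi * |w.im|) := by
    calc Real.pi = ‖Gamma w‖ * ‖Gamma (1 - w)‖ * ‖Complex.sin (Real.pi * w)‖ := h7.symm
      _ ≤ _ := by gcongr
  have h9 : Real.exp (-(Real.pi * |w.im| / 2)) * Real.exp (Real.pi * |w.im|) =
      Real.exp (Real.pi * |w.im| / 2) := by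
    rw [← Real.exp_add]; congr 1; ring
  have h10 : Real.exp (-(Real.pi * |w.im| / 2)) * Real.exp (Real.pi * |w.im| / 2) = 1 := by
    rw [← Real.exp_add]
    have : -(Real.pi * |w.im| / 2) + Real.pi * |w.im| / 2 = 0 := by ring
    rw [this, Real.exp_zero]
  have hp : 0 < (1 + |w.im|) ^ 2 := by positivity
  have h11 : 1 ≤ ‖Gamma w‖ * (112 * (1 + |w.im|) ^ 2) * Real.exp (Real.pi * |w.im| / 2) := by
    have : ‖Gamma w‖ * (112 * (1 + |w.im|) ^ 2 * Real.exp (-(Real.pi * |w.im| / 2))) *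
        Real.exp (Real.pi * |w.im|) =
        ‖Gamma w‖ * (112 * (1 + |w.im|) ^ 2) * Real.exp (Real.pi * |w.im| / 2) := by
      rw [← h9]; ring
    linarith [this ▸ h8]
  have hexp := Real.exp_pos (-(Real.pi * |w.im| / 2))
  calc (1 / 112) * ((1 + |w.im|) ^ 2)⁻¹ * Real.exp (-(Real.pi * |w.im| / 2))
      ≤ (1 / 112) * ((1 + |w.im|) ^ 2)⁻¹ * Real.exp (-(Real.pi * |w.im| / 2)) *
        (‖Gamma w‖ * (112 * (1 + |w.im|) ^ 2) * Real.exp (Real.pi * |w.im| / 2)) := by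
        refine le_mul_of_one_le_right (by positivity) h11
    _ = ‖Gamma w‖ * (((1 + |w.im|) ^ 2)⁻¹ * (1 + |w.im|) ^ 2) *
        (Real.exp (-(Real.pi * |w.im| / 2)) * Real.exp (Real.pi * |w.im| / 2)) := by ring
    _ = ‖Gamma w‖ := by rw [h10, inv_mul_cancel₀ hp.ne', mul_one, mul_one]

/-- the constant for one place -/
noncomputable def cR (R : ℝ) : ℝ :=
  (1 / 2240) * ((1 + |R|) ^ 2)⁻¹ * Real.exp (-(Real.pi * |R| / 2))

lemma cR_pos (R : ℝ) : 0 < cR R := by unfold cR; positivity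

lemma cR_le (R : ℝ) : cR R ≤ 1 := by
  unfold cR
  have h1 : ((1 + |R|) ^ 2)⁻¹ ≤ 1 := by
    apply inv_le_one_of_one_le₀
    have := abs_nonneg R
    nlinarith
  have h2 : Real.exp (-(Real.pi * |R| / 2)) ≤ 1 := by
    apply Real.exp_le_one_iff.mpr
    have := Real.pi_pos
    have := abs_nonneg R
    have : 0 ≤ Real.pi * |R| / 2 := by positivity
    linarith
  have h3 : 0 ≤ ((1 + |R|) ^ 2)⁻¹ := by positivity
  have h4 : 0 ≤ Real.exp (-(Real.pi * |R| / 2)) := (Real.exp_pos _).le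
  calc (1 / 2240) * ((1 + |R|) ^ 2)⁻¹ * Real.exp (-(Real.pi * |R| / 2))
      ≤ (1 / 2240) * 1 * 1 := by gcongr
    _ ≤ 1 := by norm_num

/-- general comparison: `Γ(w)` with `|Im w| ≤ m |t| / 2 + |R|` -/
lemma Gamma_low2 (w : ℂ) (h1 : 1 / 8 ≤ w.re) (h2 : w.re ≤ 7 / 8) (m R t : ℝ)
    (hm : m ≤ 2) (him : |w.im| ≤ m * |t| / 2 + |R|) :
    (1 / 112) * ((1 + |R|) ^ 2)⁻¹ * Real.exp (-(Real.pi * |R| / 2)) *
      (((1 + |t|) ^ 2)⁻¹ * Real.exp (-(Real.pi * (m * |t|) / 4))) ≤ ‖Gamma w‖ := by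
  refine le_trans ?_ (Gamma_low w h1 h2)
  have ht := abs_nonneg t
  have hR := abs_nonneg R
  have hw := abs_nonneg w.im
  have hmt : m * |t| ≤ 2 * |t| := by gcongr
  have h3 : (1 + |w.im|) ^ 2 ≤ (1 + |R|) ^ 2 * (1 + |t|) ^ 2 := by
    rw [← mul_pow]
    have : 1 + |w.im| ≤ (1 + |R|) * (1 + |t|) := by nlinarith
    gcongr
  have h4 : ((1 + |R|) ^ 2)⁻¹ * ((1 + |t|) ^ 2)⁻¹ ≤ ((1 + |w.im|) ^ 2)⁻¹ := by
    rw [← mul_inv]
    apply inv_anti₀ (by positivity) h3
  have h5 : Real.exp (-(Real.pi * |R| / 2)) * Real.exp (-(Real.pi * (m * |t|) / 4)) ≤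
      Real.exp (-(Real.pi * |w.im| / 2)) := by
    rw [← Real.exp_add]
    apply Real.exp_le_exp.mpr
    have := Real.pi_pos
    nlinarith
  have h6 : 0 ≤ ((1 + |R|) ^ 2)⁻¹ * ((1 + |t|) ^ 2)⁻¹ := by positivity
  calc (1 / 112) * ((1 + |R|) ^ 2)⁻¹ * Real.exp (-(Real.pi * |R| / 2)) *
      (((1 + |t|) ^ 2)⁻¹ * Real.exp (-(Real.pi * (m * |t|) / 4)))
      = (1 / 112) * (((1 + |R|) ^ 2)⁻¹ * ((1 + |t|) ^ 2)⁻¹) *
        (Real.exp (-(Real.pi * |R| / 2)) * Real.exp (-(Real.pi * (m * |t|) / 4))) := by ring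
    _ ≤ _ := by gcongr

theorem GammaR_low (w : ℂ) (h1 : 1 / 4 ≤ w.re) (h2 : w.re ≤ 7 / 4) (R t : ℝ)
    (him : |w.im| ≤ |t| + |R|) :
    cR R * (((1 + |t|) ^ 2)⁻¹ * Real.exp (-(Real.pi * (1 * |t|) / 4))) ≤ ‖Gammaℝ w‖ := by
  have hpi := Real.pi_gt_three
  have hpi4 := Real.pi_le_four
  have e1 : (w / 2).re = w.re / 2 := by simp
  have e2 : (w / 2).im = w.im / 2 := by simp
  have h3 := Gamma_low2 (w / 2) (by rw [e1]; linarith) (by rw [e1]; linarith) 1 R t
    (by norm_num) (by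
      rw [e2, abs_div, abs_two]
      have := abs_nonneg R
      linarith)
  rw [Gammaℝ_def, norm_mul, norm_cpow_eq_rpow_re_of_pos Real.pi_pos]
  have e3 : (-w / 2).re = -w.re / 2 := by simp
  rw [e3]
  have h5 : (1 / 20 : ℝ) ≤ Real.pi ^ (-w.re / 2) := by
    have : Real.pi ^ (-1 : ℝ) ≤ Real.pi ^ (-w.re / 2) := by
      apply Real.rpow_le_rpow_of_exponent_le (by linarith)
      linarith
    rw [Real.rpow_neg_one] at this
    refine le_trans ?_ this
    rw [one_div]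
    apply inv_anti₀ (by positivity)
    linarith
  calc cR R * (((1 + |t|) ^ 2)⁻¹ * Real.exp (-(Real.pi * (1 * |t|) / 4)))
      = (1 / 20) * ((1 / 112) * ((1 + |R|) ^ 2)⁻¹ * Real.exp (-(Real.pi * |R| / 2)) *
        (((1 + |t|) ^ 2)⁻¹ * Real.exp (-(Real.pi * (1 * |t|) / 4)))) := by unfold cR; ring
    _ ≤ Real.pi ^ (-w.re / 2) * ‖Gamma (w / 2)‖ := by gcongr

theorem GammaC_low (w : ℂ) (h1 : 1 / 4 ≤ w.re) (h2 : w.re ≤ 3 / 4) (R t : ℝ)
    (him : |w.im| ≤ |t| + |R|) :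
    cR R * (((1 + |t|) ^ 2)⁻¹ * Real.exp (-(Real.pi * (2 * |t|) / 4))) ≤ ‖Gammaℂ w‖ := by
  have hpi := Real.pi_gt_three
  have hpi4 := Real.pi_le_four
  have h3 := Gamma_low2 w (by linarith) (by linarith) 2 R t (by norm_num) (by linarith)
  have e : (2 * Real.pi : ℂ) = ((2 * Real.pi : ℝ) : ℂ) := by push_cast; ring
  rw [Gammaℂ_def, norm_mul, norm_mul, e, norm_cpow_eq_rpow_re_of_pos (by positivity),
    Complex.norm_ofNat, neg_re]
  have h5 : (1 / 20 : ℝ) ≤ 2 * (2 * Real.pi) ^ (-w.re) := by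
    have : (2 * Real.pi) ^ (-1 : ℝ) ≤ (2 * Real.pi) ^ (-w.re) := by
      apply Real.rpow_le_rpow_of_exponent_le (by linarith)
      linarith
    rw [Real.rpow_neg_one] at this
    have h6 : (1 / 20 : ℝ) ≤ (2 * Real.pi)⁻¹ := by
      rw [one_div]
      apply inv_anti₀ (by positivity)
      linarith
    linarith
  calc cR R * (((1 + |t|) ^ 2)⁻¹ * Real.exp (-(Real.pi * (2 * |t|) / 4)))
      = (1 / 20) * ((1 / 112) * ((1 + |R|) ^ 2)⁻¹ * Real.exp (-(Real.pi * |R| / 2)) *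
        (((1 + |t|) ^ 2)⁻¹ * Real.exp (-(Real.pi * (2 * |t|) / 4)))) := by unfold cR; ring
    _ ≤ 2 * (2 * Real.pi) ^ (-w.re) * ‖Gamma w‖ := by gcongr

theorem pf_GL : T_GL := by
  classical
  intro n R
  refine ⟨2 * n, cR R ^ n, pow_pos (cR_pos R) n, ?_⟩
  intro K _ _ hn S ν hν s h1 h2
  have hab : ∀ v, |ν v| ≤ |R| := fun v => (hν v).trans (le_abs_self R)
  have hkey : ∀ v : InfinitePlace K, cR R * (((1 + |s.im|) ^ 2)⁻¹ *
      Real.exp (-(Real.pi * ((v.mult : ℝ) * |s.im|) / 4))) ≤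
      ‖(if h : v.IsReal then
        Gammaℝ (s + (if (⟨v, h⟩ : RP K) ∈ S then 1 else 0) - ν v * I)
        else Gammaℂ (s - ν v * I))‖ := by
    intro v
    have him : ∀ ε : ℝ, |(s + (ε : ℂ) - ν v * I).im| ≤ |s.im| + |R| := by
      intro ε
      have : (s + (ε : ℂ) - ν v * I).im = s.im - ν v := by simp
      rw [this]
      exact (abs_sub _ _).trans (add_le_add le_rfl (hab v))
    by_cases h : v.IsReal
    · rw [dif_pos h]
      have hm : (v.mult : ℝ) = 1 := by simp [InfinitePlace.mult, h]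
      rw [hm]
      by_cases h3 : (⟨v, h⟩ : RP K) ∈ S
      · rw [if_pos h3]
        have e : s + 1 - (ν v : ℂ) * I = s + ((1 : ℝ) : ℂ) - (ν v : ℂ) * I := by norm_num
        rw [e]
        apply GammaR_low _ _ _ R s.im (him 1)
        · simp; linarith
        · simp; linarith
      · rw [if_neg h3]
        have e : s + 0 - (ν v : ℂ) * I = s + ((0 : ℝ) : ℂ) - (ν v : ℂ) * I := by norm_num
        rw [e]
        apply GammaR_low _ _ _ R s.im (him 0)
        · simp; linarith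
        · simp; linarith
    · rw [dif_neg h]
      have hm : (v.mult : ℝ) = 2 := by simp [InfinitePlace.mult, h]
      rw [hm]
      have e : s - (ν v : ℂ) * I = s + ((0 : ℝ) : ℂ) - (ν v : ℂ) * I := by norm_num
      rw [e]
      apply GammaC_low _ _ _ R s.im (him 0)
      · simp; linarith
      · simp; linarith
  have hprod : ∏ v : InfinitePlace K, (cR R * (((1 + |s.im|) ^ 2)⁻¹ *
      Real.exp (-(Real.pi * ((v.mult : ℝ) * |s.im|) / 4)))) ≤
      ‖Pool.Agent.H23.LB.gS K S ν s‖ := by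
    unfold Pool.Agent.H23.LB.gS
    rw [norm_prod]
    apply Finset.prod_le_prod
    · intro v _
      have := (cR_pos R).le
      positivity
    · intro v _
      exact hkey v
  refine le_trans ?_ hprod
  rw [Finset.prod_mul_distrib, Finset.prod_mul_distrib, Finset.prod_const, Finset.prod_const,
    ← Real.exp_sum]
  have hcard : Fintype.card (InfinitePlace K) ≤ n := by
    rw [← hn, ← InfinitePlace.sum_mult_eq (K := K)]
    calc Fintype.card (InfinitePlace K) = ∑ _v : InfinitePlace K, 1 := by simp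
      _ ≤ ∑ v : InfinitePlace K, v.mult := Finset.sum_le_sum fun v _ => InfinitePlace.mult_pos
  have hsum : ∑ v : InfinitePlace K, (v.mult : ℝ) = n := by
    rw [← hn, ← InfinitePlace.sum_mult_eq (K := K)]
    push_cast
    rfl
  have e1 : ∑ v : InfinitePlace K, -(Real.pi * ((v.mult : ℝ) * |s.im|) / 4) =
      -(Real.pi * n * |s.im| / 4) := by
    rw [← hsum, Finset.sum_neg_distrib, ← Finset.sum_div, ← Finset.mul_sum, ← Finset.sum_mul]
    ring
  rw [e1, Finset.card_univ]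
  have ht := abs_nonneg s.im
  have h3 : cR R ^ n ≤ cR R ^ Fintype.card (InfinitePlace K) :=
    pow_le_pow_of_le_one (cR_pos R).le (cR_le R) hcard
  have h4 : (1 + |s.im|) ^ (-(2 * (n : ℝ))) ≤
      (((1 + |s.im|) ^ 2)⁻¹) ^ Fintype.card (InfinitePlace K) := by
    rw [Real.rpow_neg (by positivity), inv_pow, ← pow_mul]
    apply inv_anti₀ (by positivity)
    have : (1 + |s.im|) ^ (2 * (n : ℝ)) = (1 + |s.im|) ^ (2 * n) := by
      rw [← Real.rpow_natCast]; push_cast; rfl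
    rw [this]
    apply pow_le_pow_right₀ (by linarith)
    omega
  have h5 := (cR_pos R).le
  calc cR R ^ n * (1 + |s.im|) ^ (-(2 * (n : ℝ))) * Real.exp (-(Real.pi * n * |s.im| / 4))
      ≤ cR R ^ Fintype.card (InfinitePlace K) *
        (((1 + |s.im|) ^ 2)⁻¹) ^ Fintype.card (InfinitePlace K) *
        Real.exp (-(Real.pi * n * |s.im| / 4)) := by gcongr
    _ = _ := by ring

end Pool.Agent.H94.GLA
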