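import Pool.Agent.H94.GLA.OR2
import Pool.Agent.H66.HK.FD

/-!
# Board gla_modules, module OR: orthogonality of the characters
-/

set_option autoImplicit false

open NumberField NumberField.InfinitePlace NumberField.Units
  NumberField.Units.dirichletUnitTheorem MeasureTheory Set Filter Complex
open scoped nonZeroDivisors ENNReal

namespace Pool.Agent.H94.GLA

open Pool.Agent.H25.HK Pool.Agent.H69.RC Pool.Agent.H23.LB
open Pool.Agent.H28.RC hiding cf gS T_H1

section

variable {K : Type} [Field K] [NumberField K]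

/-- a character of a vector space with values `≠ 1` has integral zero over a fundamental
domain of a lattice in its kernel -/
theorem gen_zero {E : Type*} [NormedAddCommGroup E] [NormedSpace ℝ E] [MeasurableSpace E]
    [BorelSpace E] [FiniteDimensional ℝ E] (μ : Measure E) [μ.IsAddHaarMeasure]
    {κ : Type*} [Finite κ]
    (b : Module.Basis κ ℝ E) (L : Submodule ℤ E) (hL : Submodule.span ℤ (Set.range b) = L)
    (g : E → ℂ) (hg : ∀ z w, g (z + w) = g z * g w) (hp : ∀ l ∈ L, g l = 1) (w : E)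
    (hw : g w ≠ 1) : ∫ z in ZSpan.fundamentalDomain b, g z ∂μ = 0 := by
  subst hL
  set F := ZSpan.fundamentalDomain b with hF
  have hFm : MeasurableSet F := ZSpan.fundamentalDomain_measurableSet b
  have hd : IsAddFundamentalDomain (Submodule.span ℤ (Set.range b)) F μ :=
    ZSpan.isAddFundamentalDomain b μ
  have : Countable (Submodule.span ℤ (Set.range b)) := inferInstance
  have : VAddInvariantMeasure (Submodule.span ℤ (Set.range b)) E μ :=
    inferInstanceAs (VAddInvariantMeasure (Submodule.span ℤ (Set.range b)).toAddSubgroup E μ)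
  have hmp : MeasurePreserving (fun z : E => z + w) μ μ := measurePreserving_add_right μ w
  have hsh : IsAddFundamentalDomain (Submodule.span ℤ (Set.range b))
      ((fun z : E => z + w) ⁻¹' F) μ := by
    refine hd.preimage_of_equiv (f := fun z : E => z + w) hmp.quasiMeasurePreserving
      (e := id) Function.bijective_id ?_
    intro l z
    simp only [id, Submodule.vadd_def, vadd_eq_add]
    abel
  have h1 : ∫ z in F, g z ∂μ = ∫ z in (fun z : E => z + w) ⁻¹' F, g (z + w) ∂μ :=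
    (hmp.setIntegral_preimage_emb (MeasurableEquiv.addRight w).measurableEmbedding g F).symm
  have hper : ∀ (l : Submodule.span ℤ (Set.range b)) (z : E), g ((l +ᵥ z) + w) = g (z + w) := by
    intro l z
    rw [Submodule.vadd_def, vadd_eq_add, add_assoc, hg, hp l l.2, one_mul]
  have h2 : ∫ z in (fun z : E => z + w) ⁻¹' F, g (z + w) ∂μ = ∫ z in F, g (z + w) ∂μ :=
    hsh.setIntegral_eq hd (f := fun z => g (z + w)) hper
  have h3 : ∫ z in F, g (z + w) ∂μ = (∫ z in F, g z ∂μ) * g w := by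
    rw [← integral_mul_const]
    exact integral_congr_ae (ae_of_all _ fun z => hg z w)
  rw [h2, h3] at h1
  have h4 : (∫ z in F, g z ∂μ) * (1 - g w) = 0 := by
    rw [mul_sub, mul_one, ← h1, sub_self]
  rcases mul_eq_zero.1 h4 with h | h
  · exact h
  · exact absurd (sub_eq_zero.1 h).symm hw

lemma conj_of_norm_one {z : ℂ} (h : ‖z‖ = 1) : z * (starRingEnd ℂ) z = 1 := by
  rw [Complex.mul_conj']
  rw [h]
  simp

open scoped Classical in
lemma pr_sub (ν ν' : InfinitePlace K → ℝ) (z : logSpace K) :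
    pr K (ν - ν') z = pr K ν z - pr K ν' z := by
  unfold pr
  rw [← Finset.sum_sub_distrib]
  refine Finset.sum_congr rfl fun w _ => ?_
  rw [Pi.sub_apply, Pi.sub_apply]
  ring

open scoped Classical in
lemma pr_add' (ν : InfinitePlace K → ℝ) (z z' : logSpace K) :
    pr K ν (z + z') = pr K ν z + pr K ν z' := by
  unfold pr
  rw [← Finset.sum_add_distrib]
  refine Finset.sum_congr rfl fun w _ => ?_
  rw [Pi.add_apply, mul_add]

open scoped Classical in
lemma pr_smul' (ν : InfinitePlace K → ℝ) (c : ℝ) (z : logSpace K) :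
    pr K ν (c • z) = c * pr K ν z := by
  unfold pr
  rw [Finset.mul_sum]
  refine Finset.sum_congr rfl fun w _ => ?_
  rw [Pi.smul_apply, smul_eq_mul]
  ring

lemma ec_conj (ν ν' : InfinitePlace K → ℝ) (z : logSpace K) :
    ec K ν z * (starRingEnd ℂ) (ec K ν' z) = cexp (((-(pr K (ν - ν') z) : ℝ) : ℂ) * I) := by
  unfold ec
  rw [← Complex.exp_conj, ← Complex.exp_add, pr_sub]
  congr 1
  simp only [map_mul, map_neg, conj_ofReal, conj_I]
  push_cast
  ring

open scoped Classical in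
/-- the integral over the fundamental domain -/
theorem int_zero (hPU : T_PU) {ν ν' : InfinitePlace K → ℝ}
    (hν : ∑ v, (v.mult : ℝ) * ν v = 0) (hν' : ∑ v, (v.mult : ℝ) * ν' v = 0) (hne : ν ≠ ν')
    (hu : ∀ u : (𝓞 K)ˣ, (starRingEnd ℂ) (ph ν (u : K)) * ph ν' (u : K) = 1) :
    ∫ z in Fd K, ec K ν z * (starRingEnd ℂ) (ec K ν' z) = 0 := by
  obtain ⟨h1, -, h3, h4, h5, -, -⟩ := hPU K
  have hd0 : ∑ v, (v.mult : ℝ) * (ν - ν') v = 0 := by
    have : ∑ v, (v.mult : ℝ) * (ν - ν') v =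
        ∑ v, (v.mult : ℝ) * ν v - ∑ v, (v.mult : ℝ) * ν' v := by
      rw [← Finset.sum_sub_distrib]
      refine Finset.sum_congr rfl fun v _ => ?_
      rw [Pi.sub_apply]
      ring
    rw [this, hν, hν', sub_zero]
  obtain ⟨z0, hz0⟩ : ∃ z, pr K (ν - ν') z ≠ 0 := by
    by_contra hcon
    push Not at hcon
    exact hne (sub_eq_zero.1 (h3 _ hd0 hcon))
  have hg : ∀ z w : logSpace K, ec K ν (z + w) * (starRingEnd ℂ) (ec K ν' (z + w)) =
      (ec K ν z * (starRingEnd ℂ) (ec K ν' z)) * (ec K ν w * (starRingEnd ℂ) (ec K ν' w)) := by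
    intro z w
    rw [ec_conj, ec_conj, ec_conj, pr_add', ← Complex.exp_add]
    congr 1
    push_cast
    ring
  refine gen_zero (volume : Measure (logSpace K))
    ((basisUnitLattice K).ofZLatticeBasis ℝ (unitLattice K)) (unitLattice K)
    ((basisUnitLattice K).ofZLatticeBasis_span ℝ)
    (fun z => ec K ν z * (starRingEnd ℂ) (ec K ν' z)) hg ?_
    ((Real.pi / pr K (ν - ν') z0) • z0) ?_
  · intro l hl
    obtain ⟨u, hul⟩ : ∃ u : (𝓞 K)ˣ, logEmbedding K (Additive.ofMul u) = l := by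
      obtain ⟨x, -, hx⟩ := hl
      exact ⟨x.toMul, hx⟩
    have h6 := h4 ν 0 u
    have h7 := h4 ν' 0 u
    have h8 : ∀ ν : InfinitePlace K → ℝ, ec K ν 0 = 1 := by
      intro ν
      unfold ec
      have : pr K ν 0 = 0 := by
        unfold pr
        exact Finset.sum_eq_zero fun w _ => by rw [Pi.zero_apply, mul_zero]
      rw [this]
      simp
    rw [zero_add, h8, mul_one, hul] at h6 h7
    change ec K ν l * (starRingEnd ℂ) (ec K ν' l) = 1
    rw [h6, h7, Complex.conj_conj]
    exact hu u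
  · rw [ec_conj, pr_smul', div_mul_cancel₀ _ hz0]
    rw [ofReal_neg, neg_mul, Complex.exp_neg, Complex.exp_pi_mul_I]
    norm_num

/-- nonzero element of `f M` -/
theorem exists_z (hID : T_ID) {f : Ideal (𝓞 K)} (hf : f ≠ ⊥) {M : FI K} (hM : M ≠ 0) :
    ∃ z : K, z ≠ 0 ∧ z ∈ (f : FI K) * M ∧ z ∈ M := by
  have hf' : (f : FI K) ≠ 0 := FractionalIdeal.coeIdeal_ne_zero.2 hf
  obtain ⟨z, hz, hz2⟩ := (hID K _ (mul_ne_zero hf' hM)).2.2.2.2.2.1
  exact ⟨z, hz, hz2, sub_mem' hID hf hM hz2⟩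

theorem cfh_scale (hID : T_ID) (hCF : T_CF) (hPU : T_PU) {f : Ideal (𝓞 K)} (hf : f ≠ ⊥)
    (χ : HC K f) {M : FI K} (hM : M ≠ 0) {t : K} (ht : t ≠ 0) {x : K} (hx : x ∈ M) :
    cf χ (sp t * M) (t * x) =
      sg K χ.S t * (starRingEnd ℂ) (ph χ.ν t) * cf χ M x := by
  have hspt : sp t ≠ 0 := FractionalIdeal.spanSingleton_ne_zero_iff.2 ht
  have hmem : ∀ y ∈ M, t * y ∈ sp t * M := fun y hy =>
    FractionalIdeal.mul_mem_mul (FractionalIdeal.mem_spanSingleton_self _ t) hy
  have hne : ∀ x ∈ M, x ≠ 0 → cf χ (sp t * M) (t * x) =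
      sg K χ.S t * (starRingEnd ℂ) (ph χ.ν t) * cf χ M x := by
    intro x hx hx0
    rw [(hCF K f χ _ hf (mul_ne_zero hspt hM)).1 _ (hmem x hx) (mul_ne_zero ht hx0),
      (hCF K f χ M hf hM).1 x hx hx0, (hID K M hM).2.2.2.2.2.2 t ht x hx, sg_mul _ ht hx0,
      (hPU K).2.2.2.2.2.1 χ.ν t x ht hx0, map_mul]
    ring
  by_cases hx0 : x = 0
  · subst hx0
    obtain ⟨z, hz0, hz1, hz2⟩ := exists_z hID hf hM
    have h1 := (hCF K f χ M hf hM).2.2.2.2.1 0 (fzero _) z hz1
    rw [zero_add] at h1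
    have h5 : t * z ∈ (f : FI K) * (sp t * M) := by
      rw [mul_left_comm]
      exact FractionalIdeal.mul_mem_mul (FractionalIdeal.mem_spanSingleton_self _ t) hz1
    have h2 := (hCF K f χ _ hf (mul_ne_zero hspt hM)).2.2.2.2.1 0 (fzero _) _ h5
    rw [zero_add] at h2
    rw [mul_zero, ← h1, ← h2]
    exact hne z hz2 hz0
  · exact hne x hx hx0

theorem cfh_J (hID : T_ID) (hCF : T_CF) {f : Ideal (𝓞 K)} (hf : f ≠ ⊥)
    (χ : HC K f) {M : FI K} (hM : M ≠ 0) {J : Ideal (𝓞 K)} (hJ : J ≠ ⊥) {x : K}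
    (hx : x ∈ (J : FI K) * M) : cf χ M x = χ.ψ J * cf χ ((J : FI K) * M) x := by
  have hJM : (J : FI K) * M ≠ 0 := mul_ne_zero (FractionalIdeal.coeIdeal_ne_zero.2 hJ) hM
  have hne : ∀ x ∈ (J : FI K) * M, x ≠ 0 → cf χ M x = χ.ψ J * cf χ ((J : FI K) * M) x := by
    intro x hx hx0
    obtain ⟨h1, h2⟩ := (hID K M hM).2.2.2.2.1 J hJ x hx
    rw [(hCF K f χ M hf hM).1 x h1 hx0, (hCF K f χ _ hf hJM).1 x hx hx0, h2, χ.map_mul]
    ring
  by_cases hx0 : x = 0
  · subst hx0
    obtain ⟨z, hz0, hz1, hz2⟩ := exists_z hID hf hJM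
    have h1 := (hCF K f χ _ hf hJM).2.2.2.2.1 0 (fzero _) z hz1
    have h5 : z ∈ (f : FI K) * M := by
      rw [mul_left_comm] at hz1
      exact sub_mem' hID hJ (mul_ne_zero (FractionalIdeal.coeIdeal_ne_zero.2 hf) hM) hz1
    have h2 := (hCF K f χ M hf hM).2.2.2.2.1 0 (fzero _) z h5
    rw [zero_add] at h1 h2
    rw [← h1, ← h2]
    exact hne z hz2 hz0
  · exact hne x hx hx0

end

theorem pf_OR (hPU : T_PU) (hCF : T_CF) (hRR : T_RR) (hID : T_ID) (hRX : T_RX) : T_OR := by
  classical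
  intro K _ _ f hf D χ χ' hS
  have hM : ∀ c, D.M c ≠ 0 := D.reps.1
  have hnph := (hPU K).2.2.2.2.2.2
  constructor
  · intro hne
    by_cases hν : χ.ν = χ'.ν
    · -- equal frequencies
      have hψ : χ.ψ ≠ χ'.ψ := by
        intro h
        apply hne
        cases χ
        cases χ'
        simp only at hS hν h
        subst hS hν h
        rfl
      obtain ⟨J, hJ⟩ := Function.ne_iff.1 hψ
      have hJ0 : J ≠ ⊥ := by
        rintro rfl
        exact hJ (by rw [χ.map_bot, χ'.map_bot])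
      have hJf : J ⊔ f = ⊤ := by
        by_contra hcon
        exact hJ (by rw [χ.eq_zero _ hcon, χ'.eq_zero _ hcon])
      have hρ : χ.ψ J * (starRingEnd ℂ) (χ'.ψ J) ≠ 1 := by
        intro h
        have h1 := conj_of_norm_one (χ'.norm_one J hJ0 hJf)
        have h2 : (starRingEnd ℂ) (χ'.ψ J) ≠ 0 := right_ne_zero_of_mul_eq_one h1
        exact hJ (mul_right_cancel₀ h2 (h.trans h1.symm))
      have hS0 := sum_zero hID hRX hRR hf D.reps D.rep
        (fun M x => cf χ M x * (starRingEnd ℂ) (cf χ' M x)) ?_ ?_ hJ0 hJf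
        (χ.ψ J * (starRingEnd ℂ) (χ'.ψ J)) hρ ?_
      · have hint : ∀ z : logSpace K, ec K χ.ν z * (starRingEnd ℂ) (ec K χ'.ν z) = 1 := by
          intro z
          rw [hν]
          exact conj_of_norm_one (((hPU K).2.2.2.2.1 χ'.ν).2 z)
        have h3 : ∀ c, ∑ r ∈ D.X c, cf χ (D.M c) r * (starRingEnd ℂ) (cf χ' (D.M c) r) *
            ∫ z in Fd K, ec K χ.ν z * (starRingEnd ℂ) (ec K χ'.ν z) =
            (∑ r ∈ D.X c, cf χ (D.M c) r * (starRingEnd ℂ) (cf χ' (D.M c) r)) *
              ∫ z in Fd K, ec K χ.ν z * (starRingEnd ℂ) (ec K χ'.ν z) := fun c =>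
          (Finset.sum_mul _ _ _).symm
        rw [Finset.sum_congr rfl fun c _ => h3 c, ← Finset.sum_mul]
        rw [hS0, zero_mul]
      · intro M hM x hx l hl
        rw [(hCF K f χ M hf hM).2.2.2.2.1 x hx l hl, (hCF K f χ' M hf hM).2.2.2.2.1 x hx l hl]
      · intro M hM t ht x hx
        rw [cfh_scale hID hCF hPU hf χ hM ht hx, cfh_scale hID hCF hPU hf χ' hM ht hx, ← hS,
          ← hν]
        rw [map_mul, map_mul, Complex.conj_conj, conj_sg]
        have h4 := sg_sq χ.S t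
        have h5 := conj_of_norm_one (hnph χ.ν t)
        calc sg K χ.S t * (starRingEnd ℂ) (ph χ.ν t) * cf χ M x *
              (sg K χ.S t * ph χ.ν t * (starRingEnd ℂ) (cf χ' M x)) =
            (sg K χ.S t * sg K χ.S t) * (ph χ.ν t * (starRingEnd ℂ) (ph χ.ν t)) *
              (cf χ M x * (starRingEnd ℂ) (cf χ' M x)) := by ring
          _ = _ := by rw [h4, h5, one_mul, one_mul]
      · intro M hM x hx
        rw [cfh_J hID hCF hf χ hM hJ0 hx, cfh_J hID hCF hf χ' hM hJ0 hx, map_mul]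
        ring
    · -- different frequencies
      by_cases hu : ∀ u : (𝓞 K)ˣ, (starRingEnd ℂ) (ph χ.ν (u : K)) * ph χ'.ν (u : K) = 1
      · rw [int_zero hPU χ.norm_zero χ'.norm_zero hν hu]
        refine Finset.sum_eq_zero fun c _ => Finset.sum_eq_zero fun r _ => by rw [mul_zero]
      · push Not at hu
        obtain ⟨u, hu⟩ := hu
        refine Finset.sum_eq_zero fun c _ => ?_
        have huK : (u : K) ≠ 0 := by
          have := u.ne_zero
          intro h
          exact this (FaithfulSMul.algebraMap_injective (𝓞 K) K (by rw [map_zero]; exact h))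
        have hspu : sp (u : K) * D.M c = D.M c := by
          have h1 : sp (u : K) = 1 := by
            have h2 : Ideal.span {(u : 𝓞 K)} = ⊤ := Ideal.span_singleton_eq_top.2 u.isUnit
            have h3 := FractionalIdeal.coeIdeal_span_singleton (S := (𝓞 K)⁰) (P := K) (u : 𝓞 K)
            rw [h2, FractionalIdeal.coeIdeal_top] at h3
            exact h3.symm
          rw [h1, one_mul]
        have h1 := rep_scale (D.rep c) huK
        rw [hspu] at h1
        have hper : ∀ x ∈ D.M c, ∀ l ∈ (f : FI K) * D.M c,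
            cf χ (D.M c) (x + l) * (starRingEnd ℂ) (cf χ' (D.M c) (x + l)) =
            cf χ (D.M c) x * (starRingEnd ℂ) (cf χ' (D.M c) x) := by
          intro x hx l hl
          rw [(hCF K f χ _ hf (hM c)).2.2.2.2.1 x hx l hl,
            (hCF K f χ' _ hf (hM c)).2.2.2.2.1 x hx l hl]
        have h2 := sum_rep (D.rep c) h1
          (fun x => cf χ (D.M c) x * (starRingEnd ℂ) (cf χ' (D.M c) x)) hper
        rw [Finset.sum_image (fun a _ b _ h => mul_left_cancel₀ huK h)] at h2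
        have h3 : ∀ r ∈ D.X c, cf χ (D.M c) ((u : K) * r) *
            (starRingEnd ℂ) (cf χ' (D.M c) ((u : K) * r)) =
            ((starRingEnd ℂ) (ph χ.ν (u : K)) * ph χ'.ν (u : K)) *
              (cf χ (D.M c) r * (starRingEnd ℂ) (cf χ' (D.M c) r)) := by
          intro r hr
          have hrM := (D.rep c).1 r hr
          rw [(hCF K f χ _ hf (hM c)).2.2.2.1 u r hrM, (hCF K f χ' _ hf (hM c)).2.2.2.1 u r hrM,
            ← hS, map_mul, map_mul, Complex.conj_conj, conj_sg]
          have h4 := sg_sq χ.S (u : K)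
          calc sg K χ.S (u : K) * (starRingEnd ℂ) (ph χ.ν (u : K)) * cf χ (D.M c) r *
                (sg K χ.S (u : K) * ph χ'.ν (u : K) * (starRingEnd ℂ) (cf χ' (D.M c) r)) =
              (sg K χ.S (u : K) * sg K χ.S (u : K)) *
              (((starRingEnd ℂ) (ph χ.ν (u : K)) * ph χ'.ν (u : K)) *
              (cf χ (D.M c) r * (starRingEnd ℂ) (cf χ' (D.M c) r))) := by ring
            _ = _ := by rw [h4, one_mul]
        rw [Finset.sum_congr rfl h3, ← Finset.mul_sum] at h2
        have h5 : (1 - (starRingEnd ℂ) (ph χ.ν (u : K)) * ph χ'.ν (u : K)) *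
            ∑ r ∈ D.X c, cf χ (D.M c) r * (starRingEnd ℂ) (cf χ' (D.M c) r) = 0 := by
          rw [sub_mul, one_mul, sub_eq_zero]
          exact h2
        have h6 : ∑ r ∈ D.X c, cf χ (D.M c) r * (starRingEnd ℂ) (cf χ' (D.M c) r) = 0 := by
          rcases mul_eq_zero.1 h5 with h | h
          · exact absurd (sub_eq_zero.1 h).symm hu
          · exact h
        rw [← Finset.sum_mul, h6, zero_mul]
  · have h1 : ∀ c, ∑ r ∈ D.X c, ‖cf χ (D.M c) r‖ ^ 2 = (Phi K f : ℝ) := by
      intro c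
      obtain ⟨-, -, -, -, hp, hn1, hn0, -, -⟩ := hCF K f χ (D.M c) hf (hM c)
      refine count hID hf (hM c) (D.rep c) (fun x => ‖cf χ (D.M c) x‖ ^ 2) ?_ ?_ ?_
      · intro x hx l hl
        rw [hp x hx l hl]
      · intro x hx hx0 h
        rw [hn1 x hx hx0 h, one_pow]
      · intro x hx hx0 h
        rw [hn0 x hx hx0 h, norm_zero]
        norm_num
    rw [Finset.sum_congr rfl fun c _ => h1 c, Finset.sum_const, Finset.card_univ,
      (hRR K D.ι D.M D.reps).2.2, nsmul_eq_mul]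

end Pool.Agent.H94.GLA
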