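import Pool.Agent.H23.LB.Targets
import Pool.Agent.H87.HK.YC

/-!
# Board gla_modules, module PU: the phases of units and the linear form
-/

set_option autoImplicit false

open NumberField NumberField.InfinitePlace NumberField.Units
  NumberField.Units.dirichletUnitTheorem MeasureTheory Set Filter Complex
open scoped nonZeroDivisors ENNReal

namespace Pool.Agent.H94.GLA

open Pool.Agent.H25.HK Pool.Agent.H28.RC Pool.Agent.H23.LB Pool.Agent.H87.HK

section

variable (K : Type) [Field K] [NumberField K]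

lemma norm_expI (r : ℝ) : ‖cexp ((r : ℂ) * I)‖ = 1 := by
  rw [norm_exp]
  simp

lemma pr_add (ν : InfinitePlace K → ℝ) (z z' : logSpace K) :
    pr K ν (z + z') = pr K ν z + pr K ν z' := by
  unfold pr
  rw [← Finset.sum_add_distrib]
  refine Finset.sum_congr rfl fun w _ => ?_
  rw [Pi.add_apply, mul_add]

lemma pr_continuous (ν : InfinitePlace K → ℝ) : Continuous (pr K ν) := by
  unfold pr
  fun_prop

open scoped Classical in
lemma pr_unit (ν : InfinitePlace K → ℝ) (u : (𝓞 K)ˣ) :
    ∑ v, (v.mult : ℝ) * ν v * Real.log (v (u : K)) =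
      pr K ν (logEmbedding K (Additive.ofMul u)) := by
  unfold pr
  have h1 : ∀ w : {w : InfinitePlace K // w ≠ w₀},
      (ν w.1 - ν w₀) * logEmbedding K (Additive.ofMul u) w =
      (w.1.mult : ℝ) * ν w.1 * Real.log (w.1 (u : K)) -
        ν w₀ * logEmbedding K (Additive.ofMul u) w := by
    intro w
    rw [logEmbedding_component]
    ring
  rw [Finset.sum_congr rfl fun w _ => h1 w, Finset.sum_sub_distrib, ← Finset.mul_sum,
    sum_logEmbedding_component, Fintype.sum_eq_add_sum_subtype_ne _ w₀]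
  ring

open scoped Classical in
lemma pr_yc (ν : InfinitePlace K → ℝ) (hν : ∑ v, (v.mult : ℝ) * ν v = 0) (τ : ℝ)
    (z : logSpace K) : pr K ν z = (∑ v, (v.mult : ℝ) * ν v * yc K τ z v) / 2 := by
  have hw : ((w₀ : InfinitePlace K).mult : ℝ) ≠ 0 := (mult_pos' K _).ne'
  have h0 : ∑ v, (v.mult : ℝ) * ν v * yc K τ z v =
      ∑ v, (v.mult : ℝ) * ν v * (yc K τ z v - 2 * τ / Module.finrank ℚ K) := by
    have : ∑ v, (v.mult : ℝ) * ν v * (yc K τ z v - 2 * τ / Module.finrank ℚ K) =
        ∑ v, (v.mult : ℝ) * ν v * yc K τ z v -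
        (∑ v, (v.mult : ℝ) * ν v) * (2 * τ / Module.finrank ℚ K) := by
      rw [Finset.sum_mul, ← Finset.sum_sub_distrib]
      refine Finset.sum_congr rfl fun v _ => by ring
    rw [this, hν]; ring
  rw [h0, Fintype.sum_eq_add_sum_subtype_ne _ w₀, yc_w0]
  have h1 : ∀ v : {w : InfinitePlace K // w ≠ w₀},
      (v.1.mult : ℝ) * ν v.1 * (yc K τ z v.1 - 2 * τ / Module.finrank ℚ K) =
      2 * (ν v.1 * z v) := by
    intro v
    rw [yc_ne]
    have := (mult_pos' K v.1).ne'
    field_simp
    ring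
  rw [Finset.sum_congr rfl fun v _ => h1 v, ← Finset.mul_sum]
  unfold pr
  have h2 : ∀ w : {w : InfinitePlace K // w ≠ w₀}, (ν w.1 - ν w₀) * z w =
      ν w.1 * z w - ν w₀ * z w := fun w => by ring
  rw [Finset.sum_congr rfl fun w _ => h2 w, Finset.sum_sub_distrib, ← Finset.mul_sum]
  field_simp
  ring

open scoped Classical in
lemma pr_zero (ν : InfinitePlace K → ℝ) (hν : ∑ v, (v.mult : ℝ) * ν v = 0)
    (h : ∀ z, pr K ν z = 0) : ν = 0 := by
  have h1 : ∀ v, ν v = ν w₀ := by
    intro v
    by_cases hv : v = w₀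
    · rw [hv]
    · have := h (Pi.single (⟨v, hv⟩ : {w : InfinitePlace K // w ≠ w₀}) 1)
      unfold pr at this
      rw [Finset.sum_eq_single (⟨v, hv⟩ : {w : InfinitePlace K // w ≠ w₀})] at this
      · rw [Pi.single_eq_same, mul_one] at this
        linarith
      · intro b _ hb
        rw [Pi.single_eq_of_ne hb, mul_zero]
      · intro hb
        exact absurd (Finset.mem_univ _) hb
  have h2 : ∑ v, (v.mult : ℝ) * ν v = (Module.finrank ℚ K : ℝ) * ν w₀ := by
    rw [← sum_mult_eq (K := K), Nat.cast_sum, Finset.sum_mul]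
    exact Finset.sum_congr rfl fun v _ => by rw [h1 v]
  rw [hν] at h2
  have hn : (Module.finrank ℚ K : ℝ) ≠ 0 := by
    exact_mod_cast (Module.finrank_pos (R := ℚ) (M := K)).ne'
  have h3 : ν w₀ = 0 := by
    rcases mul_eq_zero.mp h2.symm with h | h
    · exact absurd h hn
    · exact h
  funext v
  rw [h1 v, h3]
  rfl

end

theorem pf_PU : T_PU := by
  intro K _ _
  classical
  have hph : ∀ (ν : InfinitePlace K → ℝ) (u : (𝓞 K)ˣ),
      ph ν (u : K) = cexp ((pr K ν (logEmbedding K (Additive.ofMul u)) : ℝ) * I) := by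
    intro ν u
    unfold ph
    rw [pr_unit K ν u]
  refine ⟨hph, fun ν hν τ z => pr_yc K ν hν τ z, fun ν hν h => pr_zero K ν hν h, ?_, ?_, ?_, ?_⟩
  · intro ν z u
    rw [hph ν u, ← Complex.exp_conj]
    unfold ec
    rw [← Complex.exp_add, pr_add]
    congr 1
    simp only [map_mul, conj_ofReal, conj_I]
    push_cast
    ring
  · intro ν
    constructor
    · unfold ec
      have := pr_continuous K ν
      fun_prop
    · intro z
      unfold ec
      have : -((pr K ν z : ℝ) : ℂ) * I = ((-(pr K ν z) : ℝ) : ℂ) * I := by push_cast; ring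
      rw [this]
      exact norm_expI _
  · intro ν x y hx hy
    unfold ph
    have h : ∑ v : InfinitePlace K, (v.mult : ℝ) * ν v * Real.log (v (x * y)) =
        ∑ v : InfinitePlace K, (v.mult : ℝ) * ν v * Real.log (v x) +
          ∑ v : InfinitePlace K, (v.mult : ℝ) * ν v * Real.log (v y) := by
      rw [← Finset.sum_add_distrib]
      refine Finset.sum_congr rfl fun v _ => ?_
      rw [map_mul, Real.log_mul (by rwa [Ne, map_eq_zero]) (by rwa [Ne, map_eq_zero])]
      ring
    rw [h, ← Complex.exp_add]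
    congr 1
    push_cast
    ring
  · intro ν x
    unfold ph
    exact norm_expI _

end Pool.Agent.H94.GLA
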