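import Pool.Agent.H23.LB.Targets
import Pool.Agent.H69.RC.CI

/-!
# Board gla_modules, module OR, part 1: sums over representatives
-/

set_option autoImplicit false

open NumberField NumberField.InfinitePlace NumberField.Units
  NumberField.Units.dirichletUnitTheorem MeasureTheory Set Filter Complex
open scoped nonZeroDivisors ENNReal

namespace Pool.Agent.H94.GLA

open Pool.Agent.H25.HK Pool.Agent.H28.RC Pool.Agent.H69.RC Pool.Agent.H23.LB

section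

variable {K : Type} [Field K] [NumberField K]

/-- sums of periodic functions do not depend on the representatives -/
theorem sum_rep {A : Type} [AddCommMonoid A] {f : Ideal (𝓞 K)} {M : FI K} {X X' : Finset K}
    (hX : Rep K f M X) (hX' : Rep K f M X') (c : K → A)
    (hc : ∀ x ∈ M, ∀ l ∈ (f : FI K) * M, c (x + l) = c x) :
    ∑ r ∈ X, c r = ∑ r ∈ X', c r := by
  have hch : ∀ r ∈ X, ∃ r', r' ∈ X' ∧ r - r' ∈ (f : FI K) * M := fun r hr =>
    (hX'.2 r (hX.1 r hr)).exists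
  choose! i hi hi' using hch
  refine Finset.sum_bij (fun r _ => i r) (fun r hr => hi r hr) ?_ ?_ ?_
  · intro r1 h1 r2 h2 h12
    refine (hX.2 r1 (hX.1 r1 h1)).unique ⟨h1, ?_⟩ ⟨h2, ?_⟩
    · rw [sub_self]
      exact fzero _
    · have h3 := fsub (hi' r1 h1) (hi' r2 h2)
      have h4 : r1 - i r1 - (r2 - i r2) = r1 - r2 := by
        have h5 : i r1 = i r2 := h12
        rw [h5]
        ring
      rwa [h4] at h3
  · intro r' hr'
    obtain ⟨r, ⟨hr, hr2⟩, -⟩ := hX.2 r' (hX'.1 r' hr')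
    refine ⟨r, hr, ?_⟩
    refine (hX'.2 r' (hX'.1 r' hr')).unique ⟨hi r hr, ?_⟩ ⟨hr', ?_⟩
    · have h3 := fadd hr2 (hi' r hr)
      have h4 : r' - r + (r - i r) = r' - i r := by ring
      rwa [h4] at h3
    · rw [sub_self]
      exact fzero _
  · intro r hr
    have h1 : r = i r + (r - i r) := by ring
    have h2 := hc (i r) (hX'.1 _ (hi r hr)) _ (hi' r hr)
    rw [← h1] at h2
    exact h2

/-- an ideal in the inverse class -/
theorem exists_pri (hID : T_ID) {M : FI K} (hM : M ≠ 0) : ∃ I : Ideal (𝓞 K), Pri K M I := by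
  obtain ⟨h1, -, -, h4, -, ⟨x, hx0, hx⟩, -⟩ := hID K M hM
  refine ⟨idl K M x, ?_, x, h1 x hx⟩
  rw [Ne, h4 x hx]
  exact hx0

theorem pri_rel {M N : FI K} {I : Ideal (𝓞 K)} (hM : M ≠ 0) (hN : N ≠ 0) (h1 : Pri K M I)
    (h2 : Pri K N I) : ∃ t : K, t ≠ 0 ∧ N = sp t * M := by
  obtain ⟨hI, x, hx⟩ := h1
  obtain ⟨-, y, hy⟩ := h2
  have hI' : (I : FI K) ≠ 0 := FractionalIdeal.coeIdeal_ne_zero.2 hI
  have hx0 : x ≠ 0 := by
    intro h
    rw [h, FractionalIdeal.spanSingleton_zero] at hx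
    exact mul_ne_zero hI' hM hx
  have hy0 : y ≠ 0 := by
    intro h
    rw [h, FractionalIdeal.spanSingleton_zero] at hy
    exact mul_ne_zero hI' hN hy
  refine ⟨y / x, div_ne_zero hy0 hx0, ?_⟩
  refine mul_left_cancel₀ hI' ?_
  rw [hy, mul_left_comm, hx, FractionalIdeal.spanSingleton_mul_spanSingleton,
    div_mul_cancel₀ y hx0]

theorem rel_pri {M : FI K} {I : Ideal (𝓞 K)} {t : K} (h1 : Pri K M I) : Pri K (sp t * M) I := by
  obtain ⟨hI, x, hx⟩ := h1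
  refine ⟨hI, t * x, ?_⟩
  rw [mul_left_comm, hx, FractionalIdeal.spanSingleton_mul_spanSingleton]

/-- two systems of representatives -/
theorem exists_perm (hID : T_ID) {ι ι' : Type} {M : ι → FI K} {N : ι' → FI K} (hM : Reps K M)
    (hN : Reps K N) : ∃ σ : ι ≃ ι', ∀ c, ∃ t : K, t ≠ 0 ∧ N (σ c) = sp t * M c := by
  choose I hI using fun c => exists_pri hID (hM.1 c)
  choose J hJ using fun c => exists_pri hID (hN.1 c)
  choose σ hσ _ using fun c => hN.2 (I c) (hI c).1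
  choose τ hτ _ using fun c => hM.2 (J c) (hJ c).1
  have key : ∀ c, ∃ t : K, t ≠ 0 ∧ N (σ c) = sp t * M c := fun c =>
    pri_rel (hM.1 c) (hN.1 _) (hI c) (hσ c)
  have key' : ∀ c, ∃ t : K, t ≠ 0 ∧ M (τ c) = sp t * N c := fun c =>
    pri_rel (hN.1 c) (hM.1 _) (hJ c) (hτ c)
  refine ⟨⟨σ, τ, ?_, ?_⟩, key⟩
  · intro c
    obtain ⟨t, -, ht⟩ := key c
    obtain ⟨s, -, hs⟩ := key' (σ c)
    refine (hM.2 (I c) (hI c).1).unique ?_ (hI c)
    rw [hs, ht]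
    exact rel_pri (rel_pri (hI c))
  · intro c
    obtain ⟨t, -, ht⟩ := key' c
    obtain ⟨s, -, hs⟩ := key (τ c)
    refine (hN.2 (J c) (hJ c).1).unique ?_ (hJ c)
    rw [hs, ht]
    exact rel_pri (rel_pri (hJ c))

/-- invariance of the sum over two systems of representatives -/
theorem sum_reps (hID : T_ID) {f : Ideal (𝓞 K)} {ι ι' : Type} [Fintype ι] [Fintype ι']
    {M : ι → FI K} {N : ι' → FI K} (hM : Reps K M) (hN : Reps K N) {X : ι → Finset K}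
    {Y : ι' → Finset K} (hX : ∀ c, Rep K f (M c) (X c)) (hY : ∀ c, Rep K f (N c) (Y c))
    (a : FI K → K → ℂ)
    (hp : ∀ M : FI K, M ≠ 0 → ∀ x ∈ M, ∀ l ∈ (f : FI K) * M, a M (x + l) = a M x)
    (hs : ∀ M : FI K, M ≠ 0 → ∀ t : K, t ≠ 0 → ∀ x ∈ M, a (sp t * M) (t * x) = a M x) :
    ∑ c, ∑ r ∈ X c, a (M c) r = ∑ c, ∑ r ∈ Y c, a (N c) r := by
  classical
  obtain ⟨σ, hσ⟩ := exists_perm hID hM hN
  refine Fintype.sum_equiv σ _ _ fun c => ?_
  obtain ⟨t, ht, hN'⟩ := hσ c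
  have h1 := rep_scale (hX c) ht
  have h2 := hY (σ c)
  rw [hN'] at h2 ⊢
  have hne : sp t * M c ≠ 0 :=
    mul_ne_zero (FractionalIdeal.spanSingleton_ne_zero_iff.2 ht) (hM.1 c)
  rw [← sum_rep h1 h2 (a (sp t * M c)) (hp _ hne),
    Finset.sum_image (fun a _ b _ h => mul_left_cancel₀ ht h)]
  exact Finset.sum_congr rfl fun r hr => (hs _ (hM.1 c) t ht r ((hX c).1 r hr)).symm

/-- vanishing of the sum -/
theorem sum_zero (hID : T_ID) (hRX : T_RX) (hRR : T_RR) {f : Ideal (𝓞 K)} (hf : f ≠ ⊥)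
    {ι : Type} [Fintype ι] {M : ι → FI K} (hM : Reps K M) {X : ι → Finset K}
    (hX : ∀ c, Rep K f (M c) (X c)) (a : FI K → K → ℂ)
    (hp : ∀ M : FI K, M ≠ 0 → ∀ x ∈ M, ∀ l ∈ (f : FI K) * M, a M (x + l) = a M x)
    (hs : ∀ M : FI K, M ≠ 0 → ∀ t : K, t ≠ 0 → ∀ x ∈ M, a (sp t * M) (t * x) = a M x)
    {J : Ideal (𝓞 K)} (hJ : J ≠ ⊥) (hJf : J ⊔ f = ⊤) (ρ : ℂ) (hρ : ρ ≠ 1)
    (hj : ∀ M : FI K, M ≠ 0 → ∀ x ∈ (J : FI K) * M, a M x = ρ * a ((J : FI K) * M) x) :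
    ∑ c, ∑ r ∈ X c, a (M c) r = 0 := by
  have hJ' : (J : FI K) ≠ 0 := FractionalIdeal.coeIdeal_ne_zero.2 hJ
  choose Y hY _ using fun c => hRX K f ((J : FI K) * M c) hf (mul_ne_zero hJ' (hM.1 c))
  have h1 := sum_reps hID hM ((hRR K ι M hM).1 J hJ) hX hY a hp hs
  have h2 : ∑ c, ∑ r ∈ X c, a (M c) r = ρ * ∑ c, ∑ r ∈ Y c, a ((J : FI K) * M c) r := by
    rw [Finset.mul_sum]
    refine Finset.sum_congr rfl fun c _ => ?_
    rw [sum_rep (hX c) (rep_J hJf hID hf hJ (hM.1 c) (hY c)) (a (M c)) (hp _ (hM.1 c)),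
      Finset.mul_sum]
    exact Finset.sum_congr rfl fun r hr => hj _ (hM.1 c) r ((hY c).1 r hr)
  rw [← h1] at h2
  have h3 : (1 - ρ) * ∑ c, ∑ r ∈ X c, a (M c) r = 0 := by
    rw [sub_mul, one_mul, ← h2, sub_self]
  rcases mul_eq_zero.1 h3 with h | h
  · exact absurd (sub_eq_zero.1 h).symm hρ
  · exact h

end

end Pool.Agent.H94.GLA
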