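import Pool.Agent.H94.GLA.OR1

/-!
# Board gla_modules, module OR, part 2: counting the classes prime to the modulus
-/

set_option autoImplicit false

open NumberField NumberField.InfinitePlace NumberField.Units
  NumberField.Units.dirichletUnitTheorem MeasureTheory Set Filter Complex
open scoped nonZeroDivisors ENNReal

namespace Pool.Agent.H94.GLA

open Pool.Agent.H25.HK Pool.Agent.H28.RC Pool.Agent.H69.RC Pool.Agent.H23.LB

section

variable {K : Type} [Field K] [NumberField K]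

/-- an element prime to the modulus -/
theorem exists_coprime (hID : T_ID) {f : Ideal (𝓞 K)} (hf : f ≠ ⊥) {M : FI K} (hM : M ≠ 0) :
    ∃ x ∈ M, x ≠ 0 ∧ idl K M x ⊔ f = ⊤ := by
  obtain ⟨h1, -, -, h4, -, ⟨x1, hx1, hx1M⟩, -⟩ := hID K M hM
  have hf' : (f : FI K) ≠ 0 := FractionalIdeal.coeIdeal_ne_zero.2 hf
  have hle : (f : FI K) * M ≤ M := by
    have h3 : (f : FI K) * M ≤ 1 * M := mul_le_mul_left FractionalIdeal.coeIdeal_le_one M
    rwa [one_mul] at h3
  obtain ⟨x, hx⟩ := IsDedekindDomain.exists_add_spanSingleton_mul_eq (K := K)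
    (a := (f : FI K) * M) (b := 1) (c := M) hle (mul_ne_zero hf' hM) one_ne_zero
  rw [mul_one] at hx
  have hxM : x ∈ M := by
    rw [← hx]
    have h2 : sp x ≤ (f : FI K) * M + sp x := le_add_of_nonneg_left bot_le
    exact h2 (FractionalIdeal.mem_spanSingleton_self _ x)
  by_cases hx0 : x = 0
  · refine ⟨x1, hx1M, hx1, ?_⟩
    rw [hx0, FractionalIdeal.spanSingleton_zero, add_zero] at hx
    have h5 : (f : FI K) = 1 := mul_right_cancel₀ hM (by rw [hx, one_mul])
    have h6 : f = ⊤ := by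
      rw [← Ideal.one_eq_top]
      exact FractionalIdeal.coeIdeal_eq_one.1 h5
    rw [h6, sup_top_eq]
  · refine ⟨x, hxM, hx0, ?_⟩
    have h5 : ((idl K M x ⊔ f : Ideal (𝓞 K)) : FI K) = 1 := by
      refine mul_right_cancel₀ hM ?_
      rw [FractionalIdeal.coeIdeal_sup, add_mul, h1 x hxM, add_comm, hx, one_mul]
    rw [← Ideal.one_eq_top]
    exact FractionalIdeal.coeIdeal_eq_one.1 h5

omit [NumberField K] in
theorem isUnit_mk {f : Ideal (𝓞 K)} (a : 𝓞 K) :
    IsUnit (Ideal.Quotient.mk f a) ↔ Ideal.span {a} ⊔ f = ⊤ := by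
  rw [Ideal.eq_top_iff_one, Ideal.mem_span_singleton_sup]
  constructor
  · intro h
    obtain ⟨q, hq⟩ := h.exists_left_inv
    obtain ⟨b, rfl⟩ := Ideal.Quotient.mk_surjective q
    rw [← map_mul, ← map_one (Ideal.Quotient.mk f), Ideal.Quotient.eq] at hq
    exact ⟨b, 1 - b * a, by rw [← neg_sub]; exact neg_mem hq, by ring⟩
  · rintro ⟨b, c, hc, h⟩
    refine IsUnit.of_mul_eq_one (Ideal.Quotient.mk f b) ?_
    rw [← map_mul, ← map_one (Ideal.Quotient.mk f), Ideal.Quotient.eq]
    have h2 : a * b - 1 = -c := by rw [← h]; ring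
    rw [h2]
    exact neg_mem hc

omit [NumberField K] in
theorem sup_mul_iff {f I J : Ideal (𝓞 K)} (hJ : J ⊔ f = ⊤) : I * J ⊔ f = ⊤ ↔ I ⊔ f = ⊤ := by
  constructor
  · intro h
    rw [eq_top_iff, ← h]
    exact sup_le_sup_right Ideal.mul_le_left f
  · intro h
    rw [sup_comm] at h hJ ⊢
    rw [Ideal.sup_mul_eq_of_coprime_left h, hJ]

theorem exists_rep (f : Ideal (𝓞 K)) [Fintype (𝓞 K ⧸ f)] [DecidableEq K] :
    Rep K f (1 : FI K) (Finset.univ.image fun q : 𝓞 K ⧸ f => ((Quotient.out q : 𝓞 K) : K)) := by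
  constructor
  · intro r hr
    obtain ⟨q, -, rfl⟩ := Finset.mem_image.1 hr
    exact (FractionalIdeal.mem_one_iff _).2 ⟨_, rfl⟩
  · intro x hx
    obtain ⟨a, rfl⟩ := (FractionalIdeal.mem_one_iff _).1 hx
    have hout : ∀ q : 𝓞 K ⧸ f, Ideal.Quotient.mk f (Quotient.out q) = q := fun q =>
      Quotient.out_eq q
    refine ⟨((Quotient.out (Ideal.Quotient.mk f a) : 𝓞 K) : K),
      ⟨Finset.mem_image_of_mem _ (Finset.mem_univ _), ?_⟩, ?_⟩
    · rw [mul_one]
      have h1 : a - Quotient.out (Ideal.Quotient.mk f a) ∈ f := by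
        rw [← Ideal.Quotient.eq]
        exact (hout _).symm
      have h2 := FractionalIdeal.mem_coeIdeal_of_mem (P := K) (𝓞 K)⁰ h1
      rwa [map_sub] at h2
    · rintro r ⟨hr, hr2⟩
      obtain ⟨q, -, rfl⟩ := Finset.mem_image.1 hr
      rw [mul_one] at hr2
      have h3 : a - Quotient.out q ∈ f := by
        obtain ⟨b, hb, hb2⟩ := (FractionalIdeal.mem_coeIdeal (𝓞 K)⁰).1 hr2
        have h4 : b = a - Quotient.out q :=
          FaithfulSMul.algebraMap_injective (𝓞 K) K (by rw [map_sub]; exact hb2)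
        rwa [← h4]
      rw [← Ideal.Quotient.eq, hout q] at h3
      rw [h3]

/-- the number of classes of `M / f M` prime to `f` -/
theorem count (hID : T_ID) {f : Ideal (𝓞 K)} (hf : f ≠ ⊥) {M : FI K} (hM : M ≠ 0)
    {X : Finset K} (hX : Rep K f M X) (g : K → ℝ)
    (hg : ∀ x ∈ M, ∀ l ∈ (f : FI K) * M, g (x + l) = g x)
    (hg1 : ∀ x ∈ M, x ≠ 0 → idl K M x ⊔ f = ⊤ → g x = 1)
    (hg0 : ∀ x ∈ M, x ≠ 0 → idl K M x ⊔ f ≠ ⊤ → g x = 0) : ∑ r ∈ X, g r = Phi K f := by
  classical
  obtain ⟨h1, -, h3, h4, -, -, -⟩ := hID K M hM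
  obtain ⟨x, hx, hx0, hxf⟩ := exists_coprime hID hf hM
  have : Finite (𝓞 K ⧸ f) := Ideal.finiteQuotientOfFreeOfNeBot f hf
  have : Fintype (𝓞 K ⧸ f) := Fintype.ofFinite _
  have hB : idl K M x ≠ ⊥ := by
    rw [Ne, h4 x hx]
    exact hx0
  have hR1 := rep_scale (exists_rep f) hx0
  have hsp : sp x * 1 = (idl K M x : FI K) * M := by rw [mul_one, h1 x hx]
  rw [hsp] at hR1
  have hR2 := rep_J hxf hID hf hB hM hR1
  rw [sum_rep hX hR2 g hg, Finset.sum_image (fun a _ b _ h => mul_left_cancel₀ hx0 h),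
    Finset.sum_image]
  · -- the value
    have hval : ∀ a : 𝓞 K, g (x * (a : K)) = if IsUnit (Ideal.Quotient.mk f a) then 1 else 0 := by
      have hne : ∀ a : 𝓞 K, a ≠ 0 →
          g (x * (a : K)) = if IsUnit (Ideal.Quotient.mk f a) then 1 else 0 := by
        intro a ha
        have haK : (a : K) ≠ 0 := by
          intro h
          exact ha (FaithfulSMul.algebraMap_injective (𝓞 K) K (by rw [map_zero]; exact h))
        have hax : (a : K) * x ∈ M := by
          have := (M : Submodule (𝓞 K) K).smul_mem a hx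
          rwa [Algebra.smul_def] at this
        have hid := h3 a x hx
        rw [mul_comm x]
        by_cases hu : IsUnit (Ideal.Quotient.mk f a)
        · rw [if_pos hu]
          refine hg1 _ hax (mul_ne_zero haK hx0) ?_
          rw [hid, sup_mul_iff hxf, ← isUnit_mk]
          exact hu
        · rw [if_neg hu]
          refine hg0 _ hax (mul_ne_zero haK hx0) ?_
          rw [hid, Ne, sup_mul_iff hxf, ← isUnit_mk]
          exact hu
      intro a
      by_cases ha : a = 0
      · obtain ⟨b, hb, hb0⟩ := Submodule.exists_mem_ne_zero_of_ne_bot hf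
        have h5 : Ideal.Quotient.mk f b = Ideal.Quotient.mk f a := by
          rw [Ideal.Quotient.eq, ha, sub_zero]
          exact hb
        rw [← h5, ← hne b hb0, ha]
        have h6 : x * (b : K) ∈ (f : FI K) * M := by
          rw [mul_comm x]
          exact FractionalIdeal.mul_mem_mul (FractionalIdeal.mem_coeIdeal_of_mem _ hb) hx
        have h7 := hg 0 (fzero M) _ h6
        rw [zero_add] at h7
        rw [h7]
        congr 1
        exact (mul_eq_zero_of_right x (map_zero (algebraMap (𝓞 K) K)))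
      · exact hne a ha
    have hq : ∀ q : 𝓞 K ⧸ f, g (x * ((Quotient.out q : 𝓞 K) : K)) =
        if IsUnit q then 1 else 0 := by
      intro q
      rw [hval]
      have h8 : Ideal.Quotient.mk f (Quotient.out q) = q := Quotient.out_eq q
      rw [h8]
    rw [Finset.sum_congr rfl fun q _ => hq q, Finset.sum_boole]
    unfold Phi
    rw [Nat.cast_inj, ← Fintype.card_subtype, ← Nat.card_eq_fintype_card]
    refine Nat.card_congr (Equiv.ofBijective
      (fun u : (𝓞 K ⧸ f)ˣ => (⟨(u : 𝓞 K ⧸ f), u.isUnit⟩ : {q : 𝓞 K ⧸ f // IsUnit q}))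
      ⟨fun u v h => Units.ext (congrArg Subtype.val h), ?_⟩).symm
    rintro ⟨q, u, rfl⟩
    exact ⟨u, rfl⟩
  · intro q _ q' _ h
    have h9 : (Quotient.out q : 𝓞 K) = Quotient.out q' :=
      FaithfulSMul.algebraMap_injective (𝓞 K) K h
    rw [← Quotient.out_eq q, ← Quotient.out_eq q', h9]

end

end Pool.Agent.H94.GLA
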